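import Mathlib

set_option autoImplicit false

namespace Pool.Agent.Results.MP_4aedba_al.Club

open Filter Set Topology

abbrev I : Type := (Cardinal.aleph.{0} 1).ord.ToType

theorem bdd (s : Set I) (hs : s.Countable) : ∃ b, ∀ x ∈ s, x < b := by
  by_contra h
  push Not at h
  have h1 : (univ : Set I) ⊆ ⋃ x ∈ s, Iic x := by
    intro b _
    obtain ⟨x, hx, hb⟩ := h b
    exact mem_biUnion hx hb
  have h2 : (univ : Set I).Countable := by
    refine Set.Countable.mono h1 (hs.biUnion fun x _ => ?_)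
    rw [← Iio_insert]
    exact ((Cardinal.countable_iff_lt_aleph_one _).2 (Cardinal.mk_Iio_toType_ord_lt x)).insert x
  rw [Cardinal.countable_iff_lt_aleph_one, Cardinal.mk_univ, Cardinal.mk_ord_toType] at h2
  exact lt_irrefl _ h2

instance : Nonempty I := by
  obtain ⟨b, _⟩ := bdd ∅ countable_empty
  exact ⟨b⟩

def cl (p : (I → I) × I) : Set I := {β | p.2 < β ∧ ∀ α < β, p.1 α < β}

theorem cl_ne (p : (I → I) × I) : (cl p).Nonempty := by
  have h : ∀ β : I, ∃ b, ∀ x ∈ insert β (p.1 '' Iic β), x < b := by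
    intro β
    refine bdd _ (Set.Countable.insert _ (Set.Countable.image ?_ _))
    rw [← Iio_insert]
    exact ((Cardinal.countable_iff_lt_aleph_one _).2 (Cardinal.mk_Iio_toType_ord_lt β)).insert β
  choose f hf using h
  obtain ⟨b, hb⟩ := bdd (range fun n : ℕ => f^[n] p.2) (countable_range _)
  obtain ⟨c, hc, hm⟩ := WellFounded.has_min (wellFounded_lt (α := I))
    {b | ∀ n : ℕ, f^[n] p.2 < b} ⟨b, fun n => hb _ ⟨n, rfl⟩⟩
  refine ⟨c, hc 0, fun α hα => ?_⟩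
  have : ¬ ∀ n : ℕ, f^[n] p.2 < α := fun h => hm α h hα
  push Not at this
  obtain ⟨n, hn⟩ := this
  have h2 := hc (n + 1)
  rw [Function.iterate_succ_apply'] at h2
  exact (hf _ _ (Or.inr ⟨α, hn, rfl⟩)).trans h2

instance : (⨅ p, 𝓟 (cl p)).NeBot := by
  refine iInf_neBot_of_directed ?_ fun p => principal_neBot_iff.2 (cl_ne p)
  intro p q
  refine ⟨(fun a => max (p.1 a) (q.1 a), max p.2 q.2), ?_, ?_⟩
  · exact principal_mono.2 fun β h =>
      ⟨(max_lt_iff.1 h.1).1, fun α hα => (max_lt_iff.1 (h.2 α hα)).1⟩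
  · exact principal_mono.2 fun β h =>
      ⟨(max_lt_iff.1 h.1).2, fun α hα => (max_lt_iff.1 (h.2 α hα)).2⟩

noncomputable def UU : Ultrafilter I := Ultrafilter.of (⨅ p, 𝓟 (cl p))

theorem cl_mem (p : (I → I) × I) : cl p ∈ UU :=
  Ultrafilter.of_le _ (mem_iInf_of_mem p (mem_principal_self _))

theorem tail_mem (γ : I) : Ioi γ ∈ UU := mem_of_superset (cl_mem (id, γ)) fun _ h => h.1

def R : Subring (I → ZMod 2) where
  carrier := {x | ∃ γ c, ∀ t, γ ≤ t → x t = c}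
  zero_mem' := ⟨Classical.arbitrary I, 0, fun _ _ => rfl⟩
  one_mem' := ⟨Classical.arbitrary I, 1, fun _ _ => rfl⟩
  add_mem' := by
    rintro x y ⟨γ, c, h⟩ ⟨δ, d, k⟩
    exact ⟨max γ δ, c + d, fun t ht => by
      rw [Pi.add_apply, h t (max_le_iff.1 ht).1, k t (max_le_iff.1 ht).2]⟩
  mul_mem' := by
    rintro x y ⟨γ, c, h⟩ ⟨δ, d, k⟩
    exact ⟨max γ δ, c * d, fun t ht => by
      rw [Pi.mul_apply, h t (max_le_iff.1 ht).1, k t (max_le_iff.1 ht).2]⟩
  neg_mem' := by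
    rintro x ⟨γ, c, h⟩
    exact ⟨γ, -c, fun t ht => by rw [Pi.neg_apply, h t ht]⟩

def NJ (x : I → ZMod 2) (t : I) : Prop :=
  (∀ v ≤ t, x v = 0) ∨ ∃ u < t, ∀ v, u ≤ v → v ≤ t → x v = x t

theorem NJ_op (f : ZMod 2 → ZMod 2 → ZMod 2) (hf : f 0 0 = 0) {x y : I → ZMod 2} {t : I}
    (hx : NJ x t) (hy : NJ y t) : NJ (fun v => f (x v) (y v)) t := by
  rcases hx with hx | ⟨u, hu, hx⟩ <;> rcases hy with hy | ⟨w, hw, hy⟩
  · exact Or.inl fun v hv => by simp only [hx v hv, hy v hv, hf]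
  · exact Or.inr ⟨w, hw, fun v h1 h2 => by simp only [hx v h2, hx t le_rfl, hy v h1 h2]⟩
  · exact Or.inr ⟨u, hu, fun v h1 h2 => by simp only [hy v h2, hy t le_rfl, hx v h1 h2]⟩
  · exact Or.inr ⟨max u w, max_lt hu hw, fun v h1 h2 => by
      simp only [hx v (max_le_iff.1 h1).1 h2, hy v (max_le_iff.1 h1).2 h2]⟩

def B (A : Set I) : AddSubgroup R where
  carrier := {x | (∃ γ, ∀ t, γ ≤ t → x.1 t = 0) ∧ ∀ t, t ∉ A → NJ x.1 t}
  zero_mem' := ⟨⟨Classical.arbitrary I, fun _ _ => rfl⟩, fun _ _ => Or.inl fun _ _ => rfl⟩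
  add_mem' := by
    rintro x y ⟨⟨γ, h⟩, h'⟩ ⟨⟨δ, k⟩, k'⟩
    refine ⟨⟨max γ δ, fun t ht => ?_⟩,
      fun t ht => NJ_op (· + ·) (by simp) (h' t ht) (k' t ht)⟩
    change x.1 t + y.1 t = 0
    rw [h t (max_le_iff.1 ht).1, k t (max_le_iff.1 ht).2, add_zero]
  neg_mem' := by
    rintro x ⟨⟨γ, h⟩, h'⟩
    refine ⟨⟨γ, fun t ht => ?_⟩, fun t ht => NJ_op (fun a _ => -a) (by simp) (h' t ht) (h' t ht)⟩
    change -x.1 t = 0
    rw [h t ht, neg_zero]

theorem B_mono {A C : Set I} (h : A ⊆ C) : B A ≤ B C :=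
  fun _ hx => ⟨hx.1, fun t ht => hx.2 t fun c => ht (h c)⟩

theorem first {A : Set I} {x : R} (hx : x ∈ B A) {t : I} (ht : x.1 t ≠ 0) :
    ∃ α ∈ A, α ≤ t ∧ x.1 α ≠ 0 ∧ ∀ v < α, x.1 v = 0 := by
  obtain ⟨α, h1, h2⟩ := WellFounded.has_min (wellFounded_lt (α := I)) {t | x.1 t ≠ 0} ⟨t, ht⟩
  have h3 : ∀ v < α, x.1 v = 0 := fun v hv => by
    by_contra c
    exact h2 v c hv
  refine ⟨α, ?_, not_lt.1 (h2 t ht), h1, h3⟩
  by_contra c
  rcases hx.2 α c with h | ⟨u, hu, h⟩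
  · exact h1 (h α le_rfl)
  · exact h1 ((h u le_rfl hu.le).symm.trans (h3 u hu))

theorem vanish {A : Set I} {γ : I} {x : R} (hx : x ∈ B (A ∩ Ioi γ)) {t : I} (ht : t ≤ γ) :
    x.1 t = 0 := by
  by_contra c
  obtain ⟨α, h1, h2, _⟩ := first hx c
  exact absurd (h2.trans ht) (not_le.2 h1.2)

theorem basis : RingSubgroupsBasis (fun A : {A : Set I // A ∈ UU} => B A.1) := by
  refine RingSubgroupsBasis.of_comm _ ?_ ?_ ?_
  · intro A C
    exact ⟨⟨A.1 ∩ C.1, inter_mem A.2 C.2⟩,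
      le_inf (B_mono inter_subset_left) (B_mono inter_subset_right)⟩
  · intro A
    refine ⟨A, ?_⟩
    rintro _ ⟨x, ⟨⟨γ, h⟩, h'⟩, y, ⟨_, k'⟩, rfl⟩
    refine ⟨⟨γ, fun t ht => ?_⟩, fun t ht => NJ_op (· * ·) (by simp) (h' t ht) (k' t ht)⟩
    change x.1 t * y.1 t = 0
    rw [h t ht, zero_mul]
  · intro r A
    obtain ⟨γ, c, h⟩ := r.2
    refine ⟨⟨A.1 ∩ Ioi γ, inter_mem A.2 (tail_mem γ)⟩, fun x hx => ?_⟩
    have e : (r * x).1 = fun v => c * x.1 v := by
      funext v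
      change r.1 v * x.1 v = _
      rcases le_total γ v with hv | hv
      · rw [h v hv]
      · rw [vanish hx hv, mul_zero, mul_zero]
    obtain ⟨⟨δ, k⟩, k'⟩ := B_mono inter_subset_left hx
    refine ⟨⟨δ, fun t ht => ?_⟩, fun t ht => ?_⟩
    · rw [e]
      simp [k t ht]
    · rw [e]
      exact NJ_op (fun a _ => c * a) (by simp) (k' t ht) (k' t ht)

instance : Nonempty {A : Set I // A ∈ UU} := ⟨⟨univ, univ_mem⟩⟩

noncomputable def a (α : I) : R :=
  ⟨fun t => if t < α then 1 else 0, α, 0, fun t ht => if_neg (not_lt.2 ht)⟩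

theorem a_sub {A : Set I} {α β : I} (hα : α ∈ A) (hβ : β ∈ A) : a α - a β ∈ B A := by
  have key : ∀ γ ∈ A, ∀ t, t ∉ A → (t < γ ∧ ∀ v ≤ t, (a γ).1 v = 1) ∨
      (γ < t ∧ ∀ v, γ ≤ v → (a γ).1 v = 0) := by
    intro γ hγ t ht
    rcases lt_trichotomy t γ with h | h | h
    · exact Or.inl ⟨h, fun v hv => if_pos (hv.trans_lt h)⟩
    · exact absurd (h ▸ hγ) ht
    · exact Or.inr ⟨h, fun v hv => if_neg (not_lt.2 hv)⟩
  refine ⟨⟨max α β, fun t ht => ?_⟩, fun t ht => ?_⟩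
  · change (if t < α then 1 else 0) - (if t < β then (1 : ZMod 2) else 0) = 0
    rw [if_neg (not_lt.2 (max_le_iff.1 ht).1), if_neg (not_lt.2 (max_le_iff.1 ht).2), sub_zero]
  · change NJ (fun v => (a α).1 v - (a β).1 v) t
    rcases key α hα t ht with ⟨h1, h2⟩ | ⟨h1, h2⟩ <;> rcases key β hβ t ht with ⟨k1, k2⟩ | ⟨k1, k2⟩
    · exact Or.inl fun v hv => by simp only [h2 v hv, k2 v hv, sub_self]
    · exact Or.inr ⟨β, k1, fun v v1 v2 => by
        simp only [h2 v v2, h2 t le_rfl, k2 v v1, k2 t k1.le]⟩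
    · exact Or.inr ⟨α, h1, fun v v1 v2 => by
        simp only [k2 v v2, k2 t le_rfl, h2 v v1, h2 t h1.le]⟩
    · exact Or.inr ⟨max α β, max_lt h1 k1, fun v v1 v2 => by
        simp only [h2 v (max_le_iff.1 v1).1, k2 v (max_le_iff.1 v1).2, h2 t h1.le, k2 t k1.le]⟩

def Cau (t : TopologicalSpace R) : Prop :=
  ∀ U ∈ @nhds R t 0, ∃ A ∈ UU, ∀ α ∈ A, ∀ β ∈ A, a α - a β ∈ U

theorem z01 (z : ZMod 2) (h : z ≠ 0) : z = 1 := by
  revert z
  decide

theorem key (t : TopologicalSpace R) (ht : IsTopologicalRing R) (hne : t ≠ ⊥)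
    (hB : ∀ A ∈ UU, (B A : Set R) ∈ 𝓝 (0 : R)) : Cau t := by
  intro U hU
  have hU' : U ∩ {x | -x ∈ U} ∈ 𝓝 (0 : R) := inter_mem hU (neg_mem_nhds_zero R hU)
  have hc : Tendsto (fun p : R × R => p.1 - p.1 * p.2) (𝓝 0 ×ˢ 𝓝 0) (𝓝 0) := by
    have : Continuous fun p : R × R => p.1 - p.1 * p.2 := by fun_prop
    have h2 := this.tendsto (0, 0)
    rw [nhds_prod_eq] at h2
    simpa using h2
  obtain ⟨V, hV, hV'⟩ := mem_prod_self_iff.1 (hc hU')
  have hnz : ∀ W ∈ 𝓝 (0 : R), ∃ x ∈ W, x ≠ 0 := by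
    intro W hW
    by_contra c
    push Not at c
    apply hne
    have : IsOpen ({0} : Set R) := by
      rw [isOpen_iff_mem_nhds]
      rintro _ rfl
      exact mem_of_superset hW c
    exact (discreteTopology_of_isOpen_singleton_zero this).eq_bot
  let Good : Set I := {α | ∀ γ, ∃ x ∈ V, (∃ δ, ∀ t, δ ≤ t → x.1 t = 0) ∧ (∀ t < α, x.1 t = 0) ∧
    ∀ t, α ≤ t → t ≤ γ → x.1 t = 1}
  have hG : Good ∈ UU := by
    by_contra c
    rw [← Ultrafilter.compl_mem_iff_notMem] at c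
    have : ∀ α, ∃ γ, α ∉ Good → ∀ x ∈ V, (∃ δ, ∀ t, δ ≤ t → x.1 t = 0) → (∀ t < α, x.1 t = 0) →
        ∃ t, α ≤ t ∧ t ≤ γ ∧ x.1 t ≠ 1 := by
      intro α
      by_cases h : α ∈ Good
      · exact ⟨α, fun c => absurd h c⟩
      · have h' := h
        simp only [Good, mem_ofPred_eq] at h'
        push Not at h'
        obtain ⟨γ, hγ⟩ := h'
        exact ⟨γ, fun _ => hγ⟩
    choose g hg using this
    obtain ⟨x, ⟨xV, xB⟩, hx⟩ := hnz _
      (inter_mem hV (hB _ (inter_mem c (cl_mem (g, Classical.arbitrary I)))))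
    obtain ⟨t, ht⟩ : ∃ t, x.1 t ≠ 0 := by
      by_contra d
      push Not at d
      exact hx (Subtype.ext (funext d))
    obtain ⟨α, h1, _, h3, h4⟩ := first xB ht
    obtain ⟨s, s1, s2, s3⟩ := hg α h1.1 x xV xB.1 h4
    obtain ⟨β, ⟨b1, b2⟩, b3⟩ := WellFounded.has_min (wellFounded_lt (α := I))
      {s | α ≤ s ∧ x.1 s ≠ 1} ⟨s, s1, s3⟩
    have hαβ : α < β := lt_of_le_of_ne b1 fun e => b2 (e ▸ z01 _ h3)
    have hβ : β ∈ Goodᶜ ∩ cl (g, Classical.arbitrary I) := by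
      by_contra d
      rcases xB.2 β d with h | ⟨u, hu, h⟩
      · exact h3 (h α b1)
      · have h5 := max_lt hu hαβ
        refine b3 (max u α) ⟨le_max_right _ _, ?_⟩ h5
        rw [h _ (le_max_left _ _) h5.le]
        exact b2
    have h6 : g α < β := hβ.2.2 α hαβ
    exact b3 s ⟨s1, s3⟩ (s2.trans_lt h6)
  have main : ∀ α ∈ Good, ∀ β ∈ Good, α ≤ β → a β - a α ∈ U ∩ {x | -x ∈ U} := by
    intro α hα β hβ hab
    obtain ⟨x, xV, ⟨δ, x1⟩, x2, x3⟩ := hα β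
    obtain ⟨y, yV, _, y2, y3⟩ := hβ δ
    have : x - x * y ∈ U ∩ {x | -x ∈ U} := hV' (mk_mem_prod xV yV)
    suffices e : a β - a α = x - x * y from e ▸ this
    apply Subtype.ext
    funext t
    change (if t < β then 1 else 0) - (if t < α then (1 : ZMod 2) else 0) =
      x.1 t - x.1 t * y.1 t
    by_cases h1 : t < α
    · simp [h1, h1.trans_le hab, x2 t h1]
    · by_cases h2 : t < β
      · simp [h1, h2, x3 t (not_lt.1 h1) h2.le, y2 t h2]
      · rcases le_total t δ with h3 | h3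
        · simp [h1, h2, y3 t (not_lt.1 h2) h3]
        · simp [h1, h2, x1 t h3]
  refine ⟨Good, hG, fun α hα β hβ => ?_⟩
  rcases le_total α β with h | h
  · simpa using (main α hα β hβ h).2
  · exact (main β hβ α hα h).1

def fam : Set (TopologicalSpace R) := {t | @IsTopologicalRing R t _ ∧ Cau t}

@[instance_reducible] def tau : TopologicalSpace R := sInf fam

theorem tau_ring : @IsTopologicalRing R tau _ := by
  let := tau
  have : ContinuousAdd R := continuousAdd_sInf fun t ht => ht.1.toContinuousAdd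
  have : ContinuousMul R := continuousMul_sInf fun t ht => ht.1.toContinuousMul
  have : ContinuousNeg R := continuousNeg_sInf fun t ht => ht.1.toContinuousNeg
  exact {}

theorem cau_iff (t : TopologicalSpace R) : Cau t ↔
    Tendsto (fun p : I × I => a p.1 - a p.2) ((UU : Filter I) ×ˢ UU) (@nhds R t 0) := by
  constructor
  · intro h U hU
    obtain ⟨A, hA, h⟩ := h U hU
    exact mem_prod_self_iff.2 ⟨A, hA, fun p hp => h _ hp.1 _ hp.2⟩
  · intro h U hU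
    obtain ⟨A, hA, h⟩ := mem_prod_self_iff.1 (h hU)
    exact ⟨A, hA, fun α hα β hβ => h (mk_mem_prod hα hβ)⟩

theorem tau_cau : Cau tau := by
  rw [cau_iff, tau, nhds_sInf]
  simp only [tendsto_iInf]
  exact fun t ht => (cau_iff t).1 ht.2

theorem tau_B (A : Set I) (hA : A ∈ UU) : (B A : Set R) ∈ @nhds R tau 0 := by
  have : tau ≤ basis.topology := by
    refine sInf_le ⟨basis.toRingFilterBasis.isTopologicalRing, fun U hU => ?_⟩
    obtain ⟨C, _, hC⟩ := basis.hasBasis_nhds_zero.mem_iff.1 hU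
    exact ⟨C.1, C.2, fun α hα β hβ => hC (a_sub hα hβ)⟩
  exact nhds_mono this (basis.hasBasis_nhds_zero.mem_of_mem (i := ⟨A, hA⟩) trivial)

theorem result : ∃ (R : Type) (_ : CommRing R) (τ : TopologicalSpace R),
    (@IsTopologicalRing R τ _ ∧ @T2Space R τ ∧ τ ≠ ⊥) ∧
    (∀ σ : TopologicalSpace R, @IsTopologicalRing R σ _ → @T2Space R σ → σ ≠ ⊥ →
      (∀ U : Set R, τ.IsOpen U → σ.IsOpen U) → σ = τ) ∧
    ∃ F : Filter R, F.NeBot ∧ (∀ U ∈ @nhds R τ 0, ∃ S ∈ F, ∀ x ∈ S, ∀ y ∈ S, x - y ∈ U) ∧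
      ∀ z : R, ¬ F ≤ @nhds R τ z := by
  refine ⟨R, inferInstance, tau, ⟨tau_ring, ?_, ?_⟩, ?_, map a UU, inferInstance, ?_, ?_⟩
  · let := tau
    have := tau_ring
    refine IsTopologicalAddGroup.t2Space_of_zero_sep fun x hx => ?_
    obtain ⟨t, ht⟩ : ∃ t, x.1 t ≠ 0 := by
      by_contra d
      push Not at d
      exact hx (Subtype.ext (funext d))
    exact ⟨B (univ ∩ Ioi t), tau_B _ (inter_mem univ_mem (tail_mem t)),
      fun c => ht (vanish c le_rfl)⟩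
  · intro h
    have : ({0} : Set R) ∈ @nhds R tau 0 := by
      rw [h]
      let : TopologicalSpace R := ⊥
      have : DiscreteTopology R := ⟨rfl⟩
      simp
    obtain ⟨A, hA, h⟩ := tau_cau _ this
    obtain ⟨α, hα⟩ := Ultrafilter.nonempty_of_mem hA
    obtain ⟨β, hβ, hab⟩ := Ultrafilter.nonempty_of_mem (inter_mem hA (tail_mem α))
    have h2 := congrArg (fun x : R => x.1 α) (h β hβ α hα)
    change (if α < β then 1 else 0) - (if α < α then (1 : ZMod 2) else 0) = 0 at h2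
    rw [if_pos (show α < β from hab), if_neg (lt_irrefl _)] at h2
    simp at h2
  · intro σ h1 _ h3 h4
    have h5 : σ ≤ tau := h4
    exact le_antisymm h5 (sInf_le ⟨h1, key σ h1 h3 fun A hA => nhds_mono h5 (tau_B A hA)⟩)
  · intro U hU
    obtain ⟨A, hA, h⟩ := tau_cau U hU
    refine ⟨a '' A, image_mem_map hA, ?_⟩
    rintro _ ⟨α, hα, rfl⟩ _ ⟨β, hβ, rfl⟩
    exact h α hα β hβ
  · intro z hz
    let := tau
    have := tau_ring
    have h1 : ∀ γ, ∃ β, γ < β ∧ a β - z ∈ B (univ ∩ Ioi γ) := by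
      intro γ
      have h2 : Tendsto (fun β => a β - z) UU (𝓝 (z - z)) := Tendsto.sub_const hz z
      rw [sub_self] at h2
      obtain ⟨β, h3, h4⟩ := Ultrafilter.nonempty_of_mem (inter_mem (tail_mem γ)
        (h2 (tau_B _ (inter_mem univ_mem (tail_mem γ)))))
      exact ⟨β, h3, h4⟩
    obtain ⟨β, _, ⟨δ, h2⟩, _⟩ := h1 (Classical.arbitrary I)
    obtain ⟨ε, h3, h4⟩ := h1 (max β δ)
    have h5 := vanish h4 le_rfl
    have h6 := h2 (max β δ) (le_max_right _ _)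
    change (if max β δ < ε then 1 else 0) - z.1 (max β δ) = 0 at h5
    change (if max β δ < β then 1 else 0) - z.1 (max β δ) = 0 at h6
    rw [if_pos h3] at h5
    rw [if_neg (not_lt.2 (le_max_left _ _))] at h6
    have : (1 : ZMod 2) = 0 := by linear_combination h5 - h6
    exact one_ne_zero this

end Pool.Agent.Results.MP_4aedba_al.Club
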